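import Mathlib

open MeasureTheory ProbabilityTheory Filter Set
open scoped ENNReal

namespace Pool.Agent.Results.MP_a33f4b_pr.Slow

/-- The mean-split algorithm. -/
noncomputable def T : ℕ → Measure ℝ → Measure ℝ
  | 0, μ => Measure.dirac (∫ x, x ∂μ)
  | n + 1, μ => μ (Iio (∫ x, x ∂μ)) • T n (cond μ (Iio (∫ x, x ∂μ))) +
      μ (Ici (∫ x, x ∂μ)) • T n (cond μ (Ici (∫ x, x ∂μ)))

/-- The Wasserstein-1 distance on the line. -/
noncomputable def W1 (μ ν : Measure ℝ) : ℝ≥0∞ :=
  ∫⁻ t, ENNReal.ofReal |μ.real (Iic t) - ν.real (Iic t)|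

theorem step {n : ℕ} {ν : Measure ℝ} [IsProbabilityMeasure ν] {b : ℝ}
    (h1 : ν (Iio (∫ x, x ∂ν)) ≠ 0 → T n (cond ν (Iio (∫ x, x ∂ν))) (Iic b) = 1)
    (h2 : ν (Ici (∫ x, x ∂ν)) ≠ 0 → T n (cond ν (Ici (∫ x, x ∂ν))) (Iic b) = 1) :
    T (n + 1) ν (Iic b) = 1 := by
  have k : ∀ p q : ℝ≥0∞, (p ≠ 0 → q = 1) → p * q = p := fun p q h => by
    by_cases e : p = 0
    · simp [e]
    · simp [h e]
  rw [T, Measure.add_apply, Measure.smul_apply, Measure.smul_apply, smul_eq_mul, smul_eq_mul,
    k _ _ h1, k _ _ h2, ← compl_Iio, prob_add_prob_compl measurableSet_Iio]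

theorem int_cond {ν : Measure ℝ} (hi : Integrable (fun x => x) ν) {S : Set ℝ} (h : ν S ≠ 0) :
    Integrable (fun x => x) (cond ν S) :=
  hi.restrict.smul_measure (ENNReal.inv_ne_top.2 h)

theorem bdd (b : ℝ) (n : ℕ) : ∀ (ν : Measure ℝ) [IsProbabilityMeasure ν],
    Integrable (fun x => x) ν → (∀ᵐ x ∂ν, x ≤ b) → T n ν (Iic b) = 1 := by
  induction n with
  | zero =>
    intro ν _ hi hb
    refine Measure.dirac_apply_of_mem ?_
    simpa using integral_mono_ae hi (integrable_const b) hb
  | succ n ih =>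
    intro ν _ hi hb
    refine step (fun h => ?_) fun h => ?_ <;>
    · have := cond_isProbabilityMeasure h
      exact ih _ (int_cond hi h) (cond_absolutelyContinuous.ae_le hb)

/-- Left ends of the blocks. -/
noncomputable def s (j : ℕ) : ℝ := 10 * (3 / 2) ^ j

/-- Uniform law on a block. -/
noncomputable def U (j : ℕ) : Measure ℝ := cond volume (Icc (s j) (11 / 10 * s j))

/-- The weights. -/
noncomputable def w (k : ℕ) : ℝ := 5 / 8 * (3 / 8) ^ k

/-- The tails of the measure. -/
noncomputable def M (j : ℕ) : Measure ℝ := Measure.sum fun k => ENNReal.ofReal (w k) • U (j + k)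

theorem s_pos (j : ℕ) : 0 < s j := by unfold s; positivity

theorem w_pos (j : ℕ) : 0 < w j := by unfold w; positivity

theorem s_mono {i j : ℕ} (h : i ≤ j) : s i ≤ s j := by unfold s; gcongr; norm_num

theorem vol (j : ℕ) : volume (Icc (s j) (11 / 10 * s j)) = ENNReal.ofReal (s j / 10) := by
  rw [Real.volume_Icc]; congr 1; ring

instance (j : ℕ) : IsProbabilityMeasure (U j) :=
  cond_isProbabilityMeasure_of_finite (by rw [vol]; simpa using s_pos j) (by rw [vol]; simp)

theorem U_ae (j : ℕ) : ∀ᵐ x ∂U j, x ∈ Icc (s j) (11 / 10 * s j) := ae_cond_mem measurableSet_Icc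

theorem U_mean (j : ℕ) : ∫ x, x ∂U j = 21 / 20 * s j := by
  have := s_pos j
  rw [U, ProbabilityTheory.cond, integral_smul_measure, vol, integral_Icc_eq_integral_Ioc,
    ← intervalIntegral.integral_of_le (by linarith), integral_id, ENNReal.toReal_inv,
    ENNReal.toReal_ofReal (by positivity), smul_eq_mul]
  field_simp
  ring

theorem geo (c : ℝ) {r : ℝ} (h0 : 0 ≤ r) (h1 : r < 1) : HasSum (fun k : ℕ => c * r ^ k) (c * (1 - r)⁻¹) :=
  (hasSum_geometric_of_lt_one h0 h1).mul_left c

instance (j : ℕ) : IsProbabilityMeasure (M j) := ⟨by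
  have g := geo (5 / 8) (r := 3 / 8) (by norm_num) (by norm_num)
  simp only [M, Measure.sum_apply _ MeasurableSet.univ, Measure.smul_apply, measure_univ,
    smul_eq_mul, mul_one]
  rw [← ENNReal.ofReal_tsum_of_nonneg (fun k => (w_pos k).le) g.summable]
  simp only [w, g.tsum_eq]
  norm_num⟩

theorem M_ae (j : ℕ) : ∀ᵐ x ∂M j, x ∈ Ici (s j) :=
  Measure.ae_sum_iff.2 fun k => Measure.ae_smul_measure
    ((U_ae _).mono fun _ h => (s_mono (Nat.le_add_right j k)).trans h.1) _

theorem M_succ (j : ℕ) :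
    M j = ENNReal.ofReal (5 / 8) • U j + ENNReal.ofReal (3 / 8) • M (j + 1) := by
  ext S hS
  simp only [M, Measure.sum_apply _ hS, Measure.smul_apply, smul_eq_mul, Measure.add_apply]
  rw [tsum_eq_zero_add' ENNReal.summable, ← ENNReal.tsum_mul_left]
  congr 1
  · simp [w]
  · refine tsum_congr fun k => ?_
    rw [← mul_assoc, ← ENNReal.ofReal_mul (by norm_num), add_assoc, add_comm 1 k]
    congr 2
    simp only [w]; ring

theorem M_sq (j : ℕ) : Integrable (fun x => x ^ 2) (M j) := by
  have b : ∀ i, ∀ᵐ x ∂U i, ‖x ^ 2‖ ≤ (11 / 10 * s i) ^ 2 := fun i => (U_ae i).mono fun x h => by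
    have := (s_pos i).le.trans h.1
    rw [Real.norm_of_nonneg (by positivity)]
    exact pow_le_pow_left₀ this h.2 2
  have I : ∀ i, Integrable (fun x => x ^ 2) (U i) := fun i =>
    Integrable.of_bound (by fun_prop) _ (b i)
  refine integrable_sum_measure (fun k => (I _).smul_measure (by simp)) ?_
  refine Summable.of_nonneg_of_le (fun k => integral_nonneg fun x => norm_nonneg _) (fun k => ?_)
    (geo (5 / 8 * (11 / 10 * s j) ^ 2) (r := 27 / 32) (by norm_num) (by norm_num)).summable
  rw [integral_smul_measure, ENNReal.toReal_ofReal (w_pos k).le, smul_eq_mul]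
  have := integral_mono_ae (I (j + k)).norm (integrable_const _) (b _)
  simp only [integral_const, probReal_univ, smul_eq_mul, one_mul] at this
  refine (mul_le_mul_of_nonneg_left this (w_pos k).le).trans (le_of_eq ?_)
  rw [show (27 / 32 : ℝ) = 3 / 8 * (3 / 2 * (3 / 2)) by norm_num, mul_pow (3 / 8 : ℝ), mul_pow (3 / 2 : ℝ)]
  simp only [w, s, pow_add]
  generalize (3 / 2 : ℝ) ^ k = a
  generalize (3 / 2 : ℝ) ^ j = c
  ring

theorem M_int (j : ℕ) : Integrable (fun x => x) (M j) :=
  ((memLp_two_iff_integrable_sq (by fun_prop)).2 (M_sq j)).integrable one_le_two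

theorem M_mean (j : ℕ) : ∫ x, x ∂M j = s (j + 1) := by
  have h := hasSum_integral_measure (M_int j)
  have g := geo (21 / 32 * s j) (r := 9 / 16) (by norm_num) (by norm_num)
  have e : (fun k => ∫ x, x ∂(ENNReal.ofReal (w k) • U (j + k))) =
      fun k => 21 / 32 * s j * (9 / 16) ^ k := by
    ext k
    rw [integral_smul_measure, ENNReal.toReal_ofReal (w_pos k).le, smul_eq_mul, U_mean,
      show (9 / 16 : ℝ) = 3 / 8 * (3 / 2) by norm_num, mul_pow (3 / 8 : ℝ)]
    simp only [w, s, pow_add]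
    generalize (3 / 2 : ℝ) ^ k = a
    generalize (3 / 2 : ℝ) ^ j = c
    ring
  rw [e] at h
  rw [M, h.unique g, s, s, pow_succ]
  ring

theorem M_cond (j : ℕ) : cond (M j) (Ici (s (j + 1))) = M (j + 1) := by
  have r : (M j).restrict (Ici (s (j + 1))) = ENNReal.ofReal (3 / 8) • M (j + 1) := by
    have : (U j).restrict (Ici (s (j + 1))) = 0 := by
      rw [Measure.restrict_eq_zero, measure_eq_zero_iff_ae_notMem]
      refine (U_ae j).mono fun x h h' => ?_
      have a := h.2
      have b : s (j + 1) ≤ x := h'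
      have c := s_pos j
      simp only [s, pow_succ] at a b c
      linarith
    rw [M_succ, Measure.restrict_add, Measure.restrict_smul, Measure.restrict_smul, this,
      Measure.restrict_eq_self_of_ae_mem (M_ae _), smul_zero, zero_add]
  rw [ProbabilityTheory.cond, ← Measure.restrict_apply_univ, r, smul_smul, Measure.smul_apply,
    measure_univ, smul_eq_mul, mul_one, ENNReal.inv_mul_cancel (by simp) (by simp), one_smul]

theorem T_M (b : ℝ) (n : ℕ) : ∀ j, s (j + n + 1) ≤ b → T n (M j) (Iic b) = 1 := by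
  induction n with
  | zero => intro j h; exact Measure.dirac_apply_of_mem (by rwa [M_mean])
  | succ n ih =>
    intro j h
    refine step (fun e => ?_) fun _ => ?_
    · have := cond_isProbabilityMeasure e
      refine bdd b n _ (int_cond (M_int j) e) ((ae_cond_mem measurableSet_Iio).mono fun x hx => ?_)
      rw [M_mean] at hx
      exact hx.le.trans ((s_mono (by omega)).trans h)
    · rw [M_mean, M_cond]
      exact ih _ (by rwa [add_right_comm j 1 n])

theorem tail (S : Set ℝ) (m : ℕ) : (3 / 8) ^ m * (M m).real S ≤ (M 0).real S := by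
  induction m with
  | zero => simp
  | succ m ih =>
    refine le_trans ?_ ih
    rw [pow_succ, mul_assoc]
    gcongr
    rw [M_succ m, measureReal_add_apply (ENNReal.mul_ne_top (by simp) (measure_ne_top _ _))
      (ENNReal.mul_ne_top (by simp) (measure_ne_top _ _)), measureReal_ennreal_smul_apply,
      measureReal_ennreal_smul_apply, ENNReal.toReal_ofReal (by norm_num),
      ENNReal.toReal_ofReal (by norm_num)]
    exact le_add_of_nonneg_left (by positivity)

theorem low (n : ℕ) : ENNReal.ofReal (9 / 16) ^ n ≤ W1 (T n (M 0)) (M 0) := by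
  have k : ∀ t ∈ Ico (s (n + 1)) (s (n + 2)), ENNReal.ofReal ((3 / 8) ^ (n + 2)) ≤
      ENNReal.ofReal |(T n (M 0)).real (Iic t) - (M 0).real (Iic t)| := fun t ht => by
    refine ENNReal.ofReal_le_ofReal (le_trans ?_ (le_abs_self _))
    have a := tail (Iic t)ᶜ (n + 2)
    have b : (M (n + 2)).real (Iic t) = 0 := by
      have : M (n + 2) (Iic t) = 0 := measure_eq_zero_iff_ae_notMem.2 ((M_ae _).mono fun x h h' =>
        absurd (h.trans h') (not_le.2 ht.2))
      rw [Measure.real, this, ENNReal.toReal_zero]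
    rw [probReal_compl_eq_one_sub measurableSet_Iic, probReal_compl_eq_one_sub measurableSet_Iic,
      b] at a
    rw [Measure.real, T_M t n 0 (by simpa using ht.1)]
    simpa using a
  refine le_trans ?_ ((setLIntegral_mono' measurableSet_Ico k).trans (setLIntegral_le_lintegral _ _))
  rw [setLIntegral_const, Real.volume_Ico, ← ENNReal.ofReal_mul (by positivity),
    ← ENNReal.ofReal_pow (by norm_num)]
  refine ENNReal.ofReal_le_ofReal ?_
  rw [show (9 / 16 : ℝ) = 3 / 8 * (3 / 2) by norm_num, mul_pow (3 / 8 : ℝ)]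
  simp only [s, pow_succ]
  nlinarith [mul_pos (pow_pos (show (0 : ℝ) < 3 / 8 by norm_num) n)
    (pow_pos (show (0 : ℝ) < 3 / 2 by norm_num) n)]

theorem result : ∃ μ : Measure ℝ, IsProbabilityMeasure μ ∧ μ ≪ volume ∧
    Integrable (fun x => x ^ 2) μ ∧ (∀ n, ENNReal.ofReal (9 / 16) ^ n ≤ W1 (T n μ) μ) ∧
    ((-Real.log 2 : ℝ) : EReal) <
      limsup (fun n : ℕ => ((1 / n : ℝ) : EReal) * ENNReal.log (W1 (T n μ) μ)) atTop := by
  refine ⟨M 0, inferInstance, Measure.absolutelyContinuous_sum_left fun k =>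
    Measure.smul_absolutelyContinuous.trans cond_absolutelyContinuous, M_sq 0, low, ?_⟩
  refine lt_of_lt_of_le (b := ((Real.log (9 / 16) : ℝ) : EReal)) ?_ (le_limsup_of_frequently_le ?_)
  · rw [EReal.coe_lt_coe_iff, ← Real.log_inv]
    exact Real.log_lt_log (by norm_num) (by norm_num)
  · refine ((eventually_gt_atTop 0).mono fun n hn => ?_).frequently
    have h := ENNReal.log_le_log (low n)
    rw [ENNReal.log_pow, ENNReal.log_ofReal_of_pos (by norm_num)] at h
    refine le_trans (le_of_eq ?_) (mul_le_mul_of_nonneg_left h (by positivity))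
    rw [← EReal.coe_natCast, ← EReal.coe_mul, ← EReal.coe_mul]
    congr 1
    field_simp

end Pool.Agent.Results.MP_a33f4b_pr.Slow
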